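import Pool.Agent.Helper58.PB.StS
import Pool.Agent.Helper15.AB.M_GS

/-! # Project PB, module GAU -/

set_option autoImplicit false

namespace Pool.Agent.Helper63.PB

open Finset
open Pool.Agent.Helper58.PB
open Pool.Agent.Helper48.BK (ex)
open Pool.Agent.Helper23.MV (PCh)

private lemma std_eq_GAU {r : ℕ} [NeZero r] (n : ℕ) (b : ZMod r) :
    ZMod.stdAddChar (N := r) ((n : ZMod r) * b) = ex ((n : ℝ) * ((b.val : ℝ) / r)) := by
  have h := ZMod.stdAddChar_coe (N := r) ((n * b.val : ℕ) : ℤ)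
  have e1 : (((n * b.val : ℕ) : ℤ) : ZMod r) = (n : ZMod r) * b := by
    push_cast
    rw [ZMod.natCast_zmod_val]
  rw [e1] at h
  rw [h]
  unfold ex
  congr 1
  push_cast
  ring

private lemma ex_add_GAU (s t : ℝ) : ex (s + t) = ex s * ex t := by
  unfold ex
  rw [← Complex.exp_add]
  congr 1
  push_cast
  ring

private lemma norm_le_GAU {r : ℕ} [NeZero r] (χ : DirichletCharacter ℂ r) (b : ZMod r) : ‖χ b‖ ≤ 1 :=
  DirichletCharacter.norm_le_one χ b

theorem hGau : StTa1 → StGau := by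
  intro _ c f y β B hB
  have hr : 0 < c.r := Nat.pos_of_ne_zero c.hr
  have hr' : (0 : ℝ) < c.r := by exact_mod_cast hr
  have hB0 : 0 ≤ B := le_trans (norm_nonneg _) (hB 0 hr)
  have hk := Pool.Agent.Helper15.AB.GS.key (r := c.r) c.prim (Ioc 0 y) (fun n => f n * ex (n * β))
  have e1 : ∑ n ∈ Ioc 0 y, f n * c.ev n * ex (n * β) =
      ∑ n ∈ Ioc 0 y, (f n * ex (n * β)) * c.χ (n : ZMod c.r) := by
    refine sum_congr rfl fun n _ => ?_
    unfold PCh.ev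
    ring
  rw [e1]
  have e2 : ‖∑ b : ZMod c.r, c.χ⁻¹ b * ∑ n ∈ Ioc 0 y, (f n * ex (n * β)) *
      ZMod.stdAddChar (N := c.r) ((n : ZMod c.r) * b)‖ ≤ c.r * B := by
    refine (norm_sum_le _ _).trans ?_
    have : ∀ b ∈ (univ : Finset (ZMod c.r)), ‖c.χ⁻¹ b * ∑ n ∈ Ioc 0 y, (f n * ex (n * β)) *
        ZMod.stdAddChar (N := c.r) ((n : ZMod c.r) * b)‖ ≤ B := by
      intro b _
      rw [norm_mul]
      have h1 : ∑ n ∈ Ioc 0 y, (f n * ex (n * β)) * ZMod.stdAddChar (N := c.r) ((n : ZMod c.r) * b) =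
          ∑ n ∈ Ioc 0 y, f n * ex (n * ((b.val : ℝ) / c.r + β)) := by
        refine sum_congr rfl fun n _ => ?_
        rw [std_eq_GAU, mul_assoc, ← ex_add_GAU]
        congr 2
        ring
      rw [h1]
      have h2 := hB b.val (ZMod.val_lt b)
      have h3 := norm_le_GAU c.χ⁻¹ b
      calc _ ≤ 1 * B := mul_le_mul h3 h2 (norm_nonneg _) zero_le_one
        _ = B := one_mul B
    refine (sum_le_sum this).trans ?_
    rw [sum_const, card_univ, ZMod.card, nsmul_eq_mul]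
  have e3 : (c.r : ℝ) * ‖∑ n ∈ Ioc 0 y, (f n * ex (n * β)) * c.χ (n : ZMod c.r)‖ ^ 2 ≤ (c.r * B) ^ 2 := by
    rw [hk]
    exact pow_le_pow_left₀ (norm_nonneg _) e2 2
  have e4 : ‖∑ n ∈ Ioc 0 y, (f n * ex (n * β)) * c.χ (n : ZMod c.r)‖ ^ 2 ≤ (√(c.r : ℝ) * B) ^ 2 := by
    rw [mul_pow, Real.sq_sqrt hr'.le]
    nlinarith [e3, hr']
  exact (sq_le_sq₀ (norm_nonneg _) (by positivity)).1 e4

end Pool.Agent.Helper63.PB
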